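import Pool.Agent.Helper2.OS.Core

/-!
The determinant and the products along one eigenvalue are affine; the two-sides theorem.
-/

set_option autoImplicit false

namespace Pool.Agent.Helper2.OS

open Matrix Complex Filter Topology
open scoped ComplexConjugate

variable {n : Type*} [Fintype n] [DecidableEq n]

theorem det_conj_add (U1 : unitary (Matrix n n ℂ)) (X B : Matrix n n ℂ) :
    ((U1 : Matrix n n ℂ) * X * star (U1 : Matrix n n ℂ) + B).det
      = (X + star (U1 : Matrix n n ℂ) * B * (U1 : Matrix n n ℂ)).det := by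
  have h2 : star (U1 : Matrix n n ℂ) * (U1 : Matrix n n ℂ) = 1 :=
    Unitary.star_mul_self_of_mem U1.2
  have h3 : (U1 : Matrix n n ℂ) * star (U1 : Matrix n n ℂ) = 1 :=
    Unitary.mul_star_self_of_mem U1.2
  have e1 : (U1 : Matrix n n ℂ) * X * star (U1 : Matrix n n ℂ) + B
      = (U1 : Matrix n n ℂ) * (X + star (U1 : Matrix n n ℂ) * B * (U1 : Matrix n n ℂ))
        * star (U1 : Matrix n n ℂ) := by
    rw [Matrix.mul_add, Matrix.add_mul]
    congr 1
    calc B = ((U1 : Matrix n n ℂ) * star (U1 : Matrix n n ℂ)) * B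
            * ((U1 : Matrix n n ℂ) * star (U1 : Matrix n n ℂ)) := by
            rw [h3, Matrix.one_mul, Matrix.mul_one]
      _ = _ := by simp only [Matrix.mul_assoc]
  rw [e1, Matrix.mul_assoc, Matrix.det_mul_comm, Matrix.mul_assoc, h2, Matrix.mul_one]

theorem det_diag_affine (i0 : n) (a : n → ℂ) (B : Matrix n n ℂ) :
    ∃ u0 v0 : ℂ, ∀ t : ℂ, (diagonal (Function.update a i0 t) + B).det = u0 * t + v0 := by
  set M : Matrix n n ℂ := diagonal (Function.update a i0 0) + B with hM
  refine ⟨(M.updateRow i0 (Pi.single i0 1)).det, M.det, fun t => ?_⟩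
  have e : diagonal (Function.update a i0 t) + B
      = M.updateRow i0 (t • (Pi.single i0 1 : n → ℂ) + M i0) := by
    ext i j
    by_cases hi : i = i0
    · subst hi
      rw [updateRow_self]
      by_cases hj : j = i
      · subst hj
        simp [hM]
      · have hj' : i ≠ j := fun h => hj h.symm
        simp [hM, hj, hj']
    · rw [updateRow_ne hi]
      by_cases hj : i = j
      · subst hj
        simp [hM, hi]
      · simp [hM, diagonal_apply_ne _ hj]
  rw [e, det_updateRow_add, det_updateRow_smul, updateRow_eq_self]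
  ring

theorem prod_affine (i0 : n) (a b : n → ℂ) (σ : Equiv.Perm n) (t : ℂ) :
    ∏ i, (Function.update a i0 t i + b (σ i))
      = (∏ i ∈ Finset.univ.erase i0, (a i + b (σ i))) * t
        + b (σ i0) * ∏ i ∈ Finset.univ.erase i0, (a i + b (σ i)) := by
  rw [← Finset.mul_prod_erase _ _ (Finset.mem_univ i0), Function.update_self]
  have e : ∏ i ∈ Finset.univ.erase i0, (Function.update a i0 t i + b (σ i))
      = ∏ i ∈ Finset.univ.erase i0, (a i + b (σ i)) := by
    refine Finset.prod_congr rfl fun i hi => ?_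
    rw [Function.update_of_ne (Finset.ne_of_mem_erase hi)]
  rw [e]
  ring

/-- The zero set of `qf` is a line or a circle. -/
theorem discProp_of_qf (a : n → ℂ) (α γ : ℝ) (β : ℂ) (hC : α ≠ 0 ∨ β ≠ 0)
    (ha : ∀ i, qf α γ β (a i) = 0) : Pool.Agent.Helper54.OMC.DiscProp a := by
  by_cases hα : α = 0
  · have hβ : β ≠ 0 := by
      rcases hC with h | h
      · exact absurd hα h
      · exact h
    apply Pool.Agent.Helper54.OMC.discProp_of_collinear
    refine (collinear_iff_exists_forall_eq_smul_vadd (k := ℝ) _).2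
      ⟨-(γ : ℂ) / 2 / conj β, I / conj β, ?_⟩
    rintro p ⟨i, rfl⟩
    refine ⟨(conj β * a i).im, ?_⟩
    have h1 := ha i
    rw [qf, hα, zero_mul, zero_add] at h1
    have hβ' : conj β ≠ 0 := (map_ne_zero _).2 hβ
    have h2 : conj β * a i = -(γ : ℂ) / 2 + ((conj β * a i).im : ℂ) * I := by
      apply Complex.ext
      · simp only [Complex.add_re, Complex.re_ofReal_mul, Complex.I_re, mul_zero, add_zero]
        have : (-(γ : ℂ) / 2).re = -γ / 2 := by
          rw [show (-(γ : ℂ) / 2) = ((-γ / 2 : ℝ) : ℂ) by push_cast; ring, Complex.ofReal_re]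
        rw [this]
        linarith
      · simp only [Complex.add_im, Complex.im_ofReal_mul, Complex.I_im, mul_one]
        have : (-(γ : ℂ) / 2).im = 0 := by
          rw [show (-(γ : ℂ) / 2) = ((-γ / 2 : ℝ) : ℂ) by push_cast; ring, Complex.ofReal_im]
        rw [this, zero_add]
    rw [vadd_eq_add, Complex.real_smul]
    apply mul_left_cancel₀ hβ'
    have h3 : conj β * (((conj β * a i).im : ℂ) * (I / conj β) + -(γ : ℂ) / 2 / conj β)
        = -(γ : ℂ) / 2 + ((conj β * a i).im : ℂ) * I := by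
      field_simp
      ring
    rw [h3]
    exact h2
  · apply Pool.Agent.Helper54.OMC.discProp_of_cospherical
    refine ⟨-β / α, Real.sqrt (normSq β / α ^ 2 - γ / α), ?_⟩
    rintro p ⟨i, rfl⟩
    have h1 := ha i
    rw [Complex.dist_eq, ← Real.sqrt_sq (norm_nonneg _), ← Complex.normSq_eq_norm_sq]
    congr 1
    have e1 : (-β / (α : ℂ)).re = -β.re / α := by simp
    have e2 : (-β / (α : ℂ)).im = -β.im / α := by simp
    rw [qf] at h1
    simp only [Complex.normSq_apply, Complex.mul_re, Complex.conj_re, Complex.conj_im] at h1 ⊢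
    rw [Complex.sub_re, Complex.sub_im, e1, e2]
    field_simp
    linear_combination α * h1

theorem setOf_eq_range (i0 : n) (a b : n → ℂ) (t : ℂ) :
    { ∏ i, (Function.update a i0 t i + b (σ i)) | σ : Equiv.Perm n }
      = Set.range (fun σ : Equiv.Perm n =>
          (∏ i ∈ Finset.univ.erase i0, (a i + b (σ i))) * t
            + b (σ i0) * ∏ i ∈ Finset.univ.erase i0, (a i + b (σ i))) := by
  ext x
  constructor
  · rintro ⟨σ, rfl⟩
    exact ⟨σ, (prod_affine i0 a b σ t).symm⟩
  · rintro ⟨σ, rfl⟩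
    exact ⟨σ, prod_affine i0 a b σ t⟩

/-- The set of values of the eigenvalue `a i0` for which the inclusion fails. -/
def bad (i0 : n) (a b : n → ℂ) (U1 U2 : unitary (Matrix n n ℂ)) : Set ℂ :=
  {t : ℂ | ((U1 : Matrix n n ℂ) * diagonal (Function.update a i0 t) * star (U1 : Matrix n n ℂ)
      + (U2 : Matrix n n ℂ) * diagonal b * star (U2 : Matrix n n ℂ)).det
      ∉ convexHull ℝ { ∏ i, (Function.update a i0 t i + b (σ i)) | σ : Equiv.Perm n }}

theorem exists_affine (i0 : n) (a b : n → ℂ) (U1 U2 : unitary (Matrix n n ℂ)) :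
    ∃ u0 v0 : ℂ, ∀ t : ℂ, ((U1 : Matrix n n ℂ) * diagonal (Function.update a i0 t)
        * star (U1 : Matrix n n ℂ)
      + (U2 : Matrix n n ℂ) * diagonal b * star (U2 : Matrix n n ℂ)).det = u0 * t + v0 := by
  obtain ⟨u0, v0, h⟩ := det_diag_affine i0 a (star (U1 : Matrix n n ℂ)
    * ((U2 : Matrix n n ℂ) * diagonal b * star (U2 : Matrix n n ℂ)) * (U1 : Matrix n n ℂ))
  refine ⟨u0, v0, fun t => ?_⟩
  rw [det_conj_add, h]

theorem isPreconnected_badSet (i0 : n) (a b : n → ℂ) (U1 U2 : unitary (Matrix n n ℂ)) :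
    IsPreconnected (bad i0 a b U1 U2) := by
  obtain ⟨u0, v0, h⟩ := exists_affine i0 a b U1 U2
  have h1 := isPreconnected_bad (fun σ : Equiv.Perm n =>
      ∏ i ∈ Finset.univ.erase i0, (a i + b (σ i)))
    (fun σ : Equiv.Perm n => b (σ i0) * ∏ i ∈ Finset.univ.erase i0, (a i + b (σ i))) u0 v0
  have h2 : bad i0 a b U1 U2 = {t : ℂ | u0 * t + v0 ∉ convexHull ℝ
      (Set.range fun σ : Equiv.Perm n => (∏ i ∈ Finset.univ.erase i0, (a i + b (σ i))) * t
        + b (σ i0) * ∏ i ∈ Finset.univ.erase i0, (a i + b (σ i)))} := by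
    ext t
    show _ ∉ _ ↔ _ ∉ _
    rw [h, setOf_eq_range]
  rw [h2]
  exact h1

theorem qf_ne_zero_of_bad (i0 : n) (a b : n → ℂ) (U1 U2 : unitary (Matrix n n ℂ)) (α γ : ℝ)
    (β : ℂ) (hC : α ≠ 0 ∨ β ≠ 0) (ha : ∀ i, i ≠ i0 → qf α γ β (a i) = 0) (t : ℂ)
    (ht : t ∈ bad i0 a b U1 U2) : qf α γ β t ≠ 0 := by
  intro hq
  apply ht
  have hd : Pool.Agent.Helper54.OMC.DiscProp (Function.update a i0 t) := by
    apply discProp_of_qf _ α γ β hC
    intro i
    by_cases hi : i = i0
    · subst hi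
      rw [Function.update_self]
      exact hq
    · rw [Function.update_of_ne hi]
      exact ha i hi
  exact hd.hull b U1 U2

theorem bad_oneSide (i0 : n) (a b : n → ℂ) (U1 U2 : unitary (Matrix n n ℂ)) (α γ : ℝ)
    (β : ℂ) (hC : α ≠ 0 ∨ β ≠ 0) (ha : ∀ i, i ≠ i0 → qf α γ β (a i) = 0) :
    (∀ t ∈ bad i0 a b U1 U2, qf α γ β t < 0) ∨ (∀ t ∈ bad i0 a b U1 U2, 0 < qf α γ β t) :=
  oneSide (isPreconnected_badSet i0 a b U1 U2) _ (continuous_qf α γ β)
    (fun t ht => qf_ne_zero_of_bad i0 a b U1 U2 α γ β hC ha t ht)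

/-- Any three points lie on a line or circle. -/
theorem exists_qf (i0 : n) (a : n → ℂ) (hn : Fintype.card n ≤ 4) :
    ∃ (α γ : ℝ) (β : ℂ), (α ≠ 0 ∨ β ≠ 0) ∧ ∀ i, i ≠ i0 → qf α γ β (a i) = 0 := by
  by_cases hne : ∃ j : n, j ≠ i0
  · obtain ⟨j, hj⟩ := hne
    let F : (ℝ × ℂ × ℝ) →ₗ[ℝ] ({i : n // i ≠ i0} → ℝ) :=
      { toFun := fun x i => x.1 * normSq (a i) + 2 * (conj x.2.1 * a i).re + x.2.2
        map_add' := by
          intro x y
          ext i
          simp only [Prod.fst_add, Prod.snd_add, map_add, add_mul, Complex.add_re, Pi.add_apply]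
          ring
        map_smul' := by
          intro r x
          ext i
          simp only [Prod.smul_fst, Prod.smul_snd, smul_eq_mul, Complex.real_smul, map_mul,
            Complex.conj_ofReal, RingHom.id_apply, Pi.smul_apply, mul_assoc,
            Complex.re_ofReal_mul]
          ring }
    have hker : LinearMap.ker F ≠ ⊥ := by
      apply F.ker_ne_bot_of_finrank_lt
      rw [Module.finrank_fintype_fun_eq_card, Module.finrank_prod, Module.finrank_prod,
        Complex.finrank_real_complex, Module.finrank_self]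
      have : Fintype.card {i : n // i ≠ i0} = Fintype.card n - 1 := by
        rw [Fintype.card_subtype_compl, Fintype.card_subtype_eq]
      omega
    obtain ⟨x, hx, hx0⟩ := Submodule.exists_mem_ne_zero_of_ne_bot hker
    rw [LinearMap.mem_ker] at hx
    have hx' : ∀ i, i ≠ i0 → qf x.1 x.2.2 x.2.1 (a i) = 0 := fun i hi => congrFun hx ⟨i, hi⟩
    refine ⟨x.1, x.2.2, x.2.1, ?_, hx'⟩
    by_contra hcon
    push Not at hcon
    obtain ⟨h1, h2⟩ := hcon
    have h3 := hx' j hj
    rw [qf, h1, h2] at h3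
    simp only [zero_mul, map_zero, Complex.zero_re, mul_zero, zero_add] at h3
    apply hx0
    ext <;> simp [h1, h2, h3]
  · refine ⟨1, 0, 0, Or.inl one_ne_zero, fun i hi => absurd ⟨i, hi⟩ hne⟩

end Pool.Agent.Helper2.OS
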