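import Pool.Agent.Helper2.OS.Aff

/-!
Symmetry under complex conjugation: the inclusion for matrices `A` with at most one non-real
eigenvalue.
-/

set_option autoImplicit false

namespace Pool.Agent.Helper2.OS

open Matrix Complex Filter Topology
open scoped ComplexConjugate

variable {n : Type*} [Fintype n] [DecidableEq n]

omit [DecidableEq n] in
/-- Two families with the same multiset of values differ by a permutation. -/
theorem exists_perm_of_map_eq (f g : n → ℂ)
    (h : (Finset.univ : Finset n).val.map f = (Finset.univ : Finset n).val.map g) :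
    ∃ c : Equiv.Perm n, ∀ i, f i = g (c i) := by
  have hcard : ∀ z : ℂ, Nonempty ({i : n // f i = z} ≃ {i : n // g i = z}) := by
    intro z
    rw [← Fintype.card_eq]
    have h1 := congrArg (Multiset.count z) h
    rw [Multiset.count_map, Multiset.count_map] at h1
    rw [Fintype.card_subtype, Fintype.card_subtype]
    have e1 : ∀ k : n → ℂ, (Finset.univ.filter fun i => k i = z).card
        = ((Finset.univ : Finset n).val.filter fun i => z = k i).card := by
      intro k
      rw [Finset.card_def, Finset.filter_val]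
      congr 1
      apply Multiset.filter_congr
      intro i _
      exact eq_comm
    rw [e1, e1]
    exact h1
  refine ⟨Equiv.ofFiberEquiv (f := f) (g := g) (fun z => (hcard z).some), fun i => ?_⟩
  exact (Equiv.ofFiberEquiv_map (fun z => (hcard z).some) i).symm

/-- If `∏ (r + b j)` is real for all real `r`, the family `b` is closed under conjugation. -/
theorem exists_conj_perm (b : n → ℂ) (h : ∀ r : ℝ, (∏ j, ((r : ℂ) + b j)).im = 0) :
    ∃ c : Equiv.Perm n, ∀ j, conj (b j) = b (c j) := by
  have hpoly : ∀ k : n → ℂ, ((Finset.univ : Finset n).val.map fun j => -k j).map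
      (fun x => Polynomial.X - Polynomial.C x) = (Finset.univ : Finset n).val.map
        (fun j => Polynomial.X + Polynomial.C (k j)) := by
    intro k
    rw [Multiset.map_map]
    apply Multiset.map_congr rfl
    intro j _
    simp
  have heq : (∏ j, (Polynomial.X + Polynomial.C (conj (b j))) : Polynomial ℂ)
      = ∏ j, (Polynomial.X + Polynomial.C (b j)) := by
    apply Polynomial.eq_of_infinite_eval_eq
    apply Set.Infinite.mono (s := Set.range (fun r : ℝ => (r : ℂ)))
    · rintro _ ⟨r, rfl⟩
      simp only [Set.mem_ofPred_eq, Polynomial.eval_prod, Polynomial.eval_add, Polynomial.eval_X,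
        Polynomial.eval_C]
      have h1 := Complex.conj_eq_iff_im.2 (h r)
      rw [map_prod] at h1
      rw [← h1]
      refine Finset.prod_congr rfl fun j _ => ?_
      rw [map_add, Complex.conj_ofReal]
    · exact Set.infinite_range_of_injective Complex.ofReal_injective
  have hroots : ((Finset.univ : Finset n).val.map fun j => -(conj (b j)))
      = ((Finset.univ : Finset n).val.map fun j => -(b j)) := by
    have h1 := congrArg Polynomial.roots heq
    have h2 : ∀ k : n → ℂ, (∏ j, (Polynomial.X + Polynomial.C (k j)) : Polynomial ℂ)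
        = (((Finset.univ : Finset n).val.map fun j => -(k j)).map
          (fun x => Polynomial.X - Polynomial.C x)).prod := by
      intro k
      rw [hpoly]
      rfl
    rw [h2 (fun j => conj (b j)), h2 b, Polynomial.roots_multiset_prod_X_sub_C,
      Polynomial.roots_multiset_prod_X_sub_C] at h1
    exact h1
  obtain ⟨c, hc⟩ := exists_perm_of_map_eq _ _ hroots
  exact ⟨c, fun j => neg_injective (hc j)⟩

/-- The theorem for one non-real eigenvalue. -/
theorem oneNonreal (i0 : n) (a b : n → ℂ) (U1 U2 : unitary (Matrix n n ℂ))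
    (ha : ∀ i, i ≠ i0 → (a i).im = 0)
    (hcb : ∃ c : Equiv.Perm n, ∀ j, conj (b j) = b (c j))
    (hB : ∀ s : ℝ, ((U1 : Matrix n n ℂ) * diagonal (Function.update a i0 (s : ℂ))
        * star (U1 : Matrix n n ℂ)
      + (U2 : Matrix n n ℂ) * diagonal b * star (U2 : Matrix n n ℂ)).det.im = 0) :
    ((U1 : Matrix n n ℂ) * diagonal a * star (U1 : Matrix n n ℂ)
      + (U2 : Matrix n n ℂ) * diagonal b * star (U2 : Matrix n n ℂ)).det
      ∈ convexHull ℝ { ∏ i, (a i + b (σ i)) | σ : Equiv.Perm n } := by
  obtain ⟨c, hc⟩ := hcb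
  obtain ⟨u0, v0, hD⟩ := exists_affine i0 a b U1 U2
  have hreal : ∀ t : ℝ, (u0 * (t : ℂ) + v0).im = 0 := by
    intro t
    have h1 := hB t
    rw [hD] at h1
    exact h1
  have hv0 : conj v0 = v0 := by
    rw [Complex.conj_eq_iff_im]
    have := hreal 0
    simpa using this
  have hu0 : conj u0 = u0 := by
    rw [Complex.conj_eq_iff_im]
    have h1 := hreal 1
    have h0 := Complex.conj_eq_iff_im.1 hv0
    rw [Complex.ofReal_one, mul_one, Complex.add_im, h0, add_zero] at h1
    exact h1
  -- symmetry of the bad set
  have hsymm : ∀ t, t ∈ bad i0 a b U1 U2 → conj t ∈ bad i0 a b U1 U2 := by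
    intro t ht ht'
    apply ht
    rw [hD] at ht' ⊢
    have e1 : u0 * t + v0 = conj (u0 * conj t + v0) := by
      rw [map_add, map_mul, hu0, hv0, Complex.conj_conj]
    have e2 : { ∏ i, (Function.update a i0 t i + b (σ i)) | σ : Equiv.Perm n }
        = (Complex.conjLIE : ℂ → ℂ) '' { ∏ i, (Function.update a i0 (conj t) i + b (σ i)) |
          σ : Equiv.Perm n } := by
      have hterm : ∀ (s : ℂ) (σ : Equiv.Perm n),
          conj (∏ i, (Function.update a i0 s i + b (σ i)))
            = ∏ i, (Function.update a i0 (conj s) i + b ((c * σ) i)) := by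
        intro s σ
        rw [map_prod]
        refine Finset.prod_congr rfl fun i _ => ?_
        rw [map_add, hc, Equiv.Perm.mul_apply]
        congr 1
        by_cases hi : i = i0
        · subst hi
          rw [Function.update_self, Function.update_self]
        · rw [Function.update_of_ne hi, Function.update_of_ne hi, Complex.conj_eq_iff_im]
          exact ha i hi
      ext x
      constructor
      · rintro ⟨σ, rfl⟩
        refine ⟨_, ⟨c * σ, rfl⟩, ?_⟩
        show conj (∏ i, (Function.update a i0 (conj t) i + b ((c * σ) i))) = _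
        rw [← hterm, Complex.conj_conj]
      · rintro ⟨_, ⟨σ, rfl⟩, rfl⟩
        refine ⟨c * σ, ?_⟩
        show _ = conj (∏ i, (Function.update a i0 (conj t) i + b (σ i)))
        rw [hterm, Complex.conj_conj]
    rw [e1, e2]
    have e3 := (Complex.conjLIE.toLinearEquiv.toLinearMap).image_convexHull
      { ∏ i, (Function.update a i0 (conj t) i + b (σ i)) | σ : Equiv.Perm n }
    have e4 : conj (u0 * conj t + v0) ∈ (Complex.conjLIE.toLinearEquiv.toLinearMap) ''
        (convexHull ℝ { ∏ i, (Function.update a i0 (conj t) i + b (σ i)) |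
          σ : Equiv.Perm n }) := ⟨_, ht', rfl⟩
    rw [e3] at e4
    exact e4
  -- the bad set is on one side of the real line
  have hside := bad_oneSide i0 a b U1 U2 0 0 I (Or.inr I_ne_zero) (by
    intro i hi
    rw [qf]
    simp [ha i hi])
  have hqf : ∀ t : ℂ, qf 0 0 I t = 2 * t.im := by
    intro t
    rw [qf]
    simp
  by_contra hcon
  have h0 : a i0 ∈ bad i0 a b U1 U2 := by
    show _ ∉ _
    rw [Function.update_eq_self]
    exact hcon
  have h1 := hsymm _ h0
  rcases hside with hs | hs
  · have h2 := hs _ h0
    have h3 := hs _ h1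
    rw [hqf] at h2 h3
    rw [Complex.conj_im] at h3
    linarith
  · have h2 := hs _ h0
    have h3 := hs _ h1
    rw [hqf] at h2 h3
    rw [Complex.conj_im] at h3
    linarith

theorem det_im_of_real (M : Matrix n n ℂ) (hM : ∀ i j, (M i j).im = 0) : M.det.im = 0 := by
  have e : M = (M.map Complex.re).map (Complex.ofRealHom : ℝ →+* ℂ) := by
    ext i j
    apply Complex.ext
    · simp
    · simp [hM i j]
  rw [e, ← RingHom.mapMatrix_apply, ← RingHom.map_det]
  simp

/-- The case of a real matrix. -/
theorem oneNonreal_real (i0 : n) (a b : n → ℂ) (U1 U2 : unitary (Matrix n n ℂ))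
    (ha : ∀ i, i ≠ i0 → (a i).im = 0)
    (hB : ∀ i j, ((star (U1 : Matrix n n ℂ)
      * ((U2 : Matrix n n ℂ) * diagonal b * star (U2 : Matrix n n ℂ))
      * (U1 : Matrix n n ℂ)) i j).im = 0) :
    ((U1 : Matrix n n ℂ) * diagonal a * star (U1 : Matrix n n ℂ)
      + (U2 : Matrix n n ℂ) * diagonal b * star (U2 : Matrix n n ℂ)).det
      ∈ convexHull ℝ { ∏ i, (a i + b (σ i)) | σ : Equiv.Perm n } := by
  have hdiag : ∀ x : n → ℂ, (∀ i, (x i).im = 0) →
      ((U1 : Matrix n n ℂ) * diagonal x * star (U1 : Matrix n n ℂ)
        + (U2 : Matrix n n ℂ) * diagonal b * star (U2 : Matrix n n ℂ)).det.im = 0 := by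
    intro x hx
    rw [det_conj_add]
    apply det_im_of_real
    intro i j
    rw [Matrix.add_apply, Complex.add_im, hB, add_zero]
    by_cases hij : i = j
    · subst hij
      rw [diagonal_apply_eq]
      exact hx i
    · rw [diagonal_apply_ne _ hij, Complex.zero_im]
  refine oneNonreal i0 a b U1 U2 ha ?_ ?_
  · apply exists_conj_perm
    intro r
    have h1 := hdiag (fun _ => (r : ℂ)) (fun _ => Complex.ofReal_im r)
    have h3 : (U1 : Matrix n n ℂ) * star (U1 : Matrix n n ℂ) = 1 :=
      Unitary.mul_star_self_of_mem U1.2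
    have h4 : star (U2 : Matrix n n ℂ) * (U2 : Matrix n n ℂ) = 1 :=
      Unitary.star_mul_self_of_mem U2.2
    have e0 : (diagonal (fun _ : n => (r : ℂ)) : Matrix n n ℂ) = (r : ℂ) • (1 : Matrix n n ℂ) := by
      rw [smul_one_eq_diagonal]
    have e1 : (U1 : Matrix n n ℂ) * diagonal (fun _ : n => (r : ℂ)) * star (U1 : Matrix n n ℂ)
        = diagonal (fun _ : n => (r : ℂ)) := by
      rw [e0, mul_smul_comm, smul_mul_assoc, Matrix.mul_one, h3]
    rw [e1, add_comm, det_conj_add] at h1
    have e2 : star (U2 : Matrix n n ℂ) * (diagonal (fun _ : n => (r : ℂ))) * (U2 : Matrix n n ℂ)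
        = diagonal (fun _ : n => (r : ℂ)) := by
      rw [e0, mul_smul_comm, smul_mul_assoc, Matrix.mul_one, h4]
    rw [e2, diagonal_add, det_diagonal] at h1
    rw [← h1]
    congr 2
    ext j
    rw [add_comm]
  · intro s
    apply hdiag
    intro i
    by_cases hi : i = i0
    · subst hi
      rw [Function.update_self, Complex.ofReal_im]
    · rw [Function.update_of_ne hi]
      exact ha i hi

end Pool.Agent.Helper2.OS
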