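import Mathlib
import Pool.Agent.Helper54.OMCMain

/-!
Helpers for the determinantal conjecture along one eigenvalue: separation of a point from a
finite set in `ℂ`, convexity of the set of separating functionals of a family which is affine in
one complex parameter, and the intermediate value argument.
-/

set_option autoImplicit false

namespace Pool.Agent.Helper2.OS

open Matrix Complex Filter Topology
open scoped ComplexConjugate

/-- A point outside the convex hull of a finite set of complex numbers can be separated. -/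
theorem exists_sep {ι : Type*} [Finite ι] (z : ι → ℂ) (w : ℂ)
    (h : w ∉ convexHull ℝ (Set.range z)) : ∃ p : ℂ, ∀ i, 0 < (p * (z i - w)).re := by
  have hcl : IsClosed (convexHull ℝ (Set.range z)) := (Set.finite_range z).isClosed_convexHull ℝ
  obtain ⟨f, u, h1, h2⟩ := geometric_hahn_banach_point_closed (convex_convexHull ℝ _) hcl h
  refine ⟨((f 1 : ℝ) : ℂ) - ((f I : ℝ) : ℂ) * I, fun i => ?_⟩
  have h3 := h2 (z i) (subset_convexHull ℝ _ ⟨i, rfl⟩)
  have h4 : ∀ x : ℂ, ((((f 1 : ℝ) : ℂ) - ((f I : ℝ) : ℂ) * I) * x).re = f x := by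
    intro x
    have e : x = x.re • (1 : ℂ) + x.im • I := by
      apply Complex.ext <;> simp
    conv_rhs => rw [e, map_add, map_smul, map_smul]
    simp [Complex.mul_re, Complex.sub_re, Complex.sub_im]
    ring
  rw [h4, map_sub]
  linarith

/-- The converse of `exists_sep`. -/
theorem not_mem_of_pos {ι : Type*} (z : ι → ℂ) (w p : ℂ) (h : ∀ i, 0 < (p * (z i - w)).re) :
    w ∉ convexHull ℝ (Set.range z) := by
  intro hw
  have hc : Convex ℝ {x : ℂ | 0 < (p * (x - w)).re} := by
    intro x hx y hy a b ha hb hab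
    simp only [Set.mem_ofPred_eq] at hx hy ⊢
    have e : (p * (a • x + b • y - w)).re = a * (p * (x - w)).re + b * (p * (y - w)).re := by
      have e1 : a • x + b • y - w = (a : ℂ) * (x - w) + (b : ℂ) * (y - w) := by
        have : ((a : ℂ) + (b : ℂ)) = 1 := by exact_mod_cast hab
        simp only [Complex.real_smul]
        linear_combination w * this
      rw [e1]
      simp only [Complex.mul_re, Complex.add_re, Complex.add_im, Complex.mul_im,
        Complex.ofReal_re, Complex.ofReal_im]
      ring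
    rw [e]
    rcases ha.eq_or_lt with rfl | ha'
    · have : b = 1 := by linarith
      subst this
      simpa using hy
    · have := mul_pos ha' hx
      have := mul_nonneg hb hy.le
      linarith
  have h2 : convexHull ℝ (Set.range z) ⊆ {x : ℂ | 0 < (p * (x - w)).re} := by
    apply convexHull_min _ hc
    rintro x ⟨i, rfl⟩
    exact h i
  have h3 := h2 hw
  simp at h3

/-- The real quadratic form whose zero set is a line or circle (or empty). -/
noncomputable def qf (α γ : ℝ) (β t : ℂ) : ℝ := α * normSq t + 2 * (conj β * t).re + γ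

/-- Two parameters at which the inclusion fails are joined by a path of such parameters. -/
theorem exists_path {ι : Type*} [Finite ι] [Nonempty ι] (u v : ι → ℂ) (u0 v0 : ℂ) (t0 t1 : ℂ)
    (hn0 : u0 * t0 + v0 ∉ convexHull ℝ (Set.range fun i => u i * t0 + v i))
    (hn1 : u0 * t1 + v0 ∉ convexHull ℝ (Set.range fun i => u i * t1 + v i)) :
    ∃ g : ℝ → ℂ, Continuous g ∧ g 0 = t0 ∧ g 1 = t1 ∧ ∀ l ∈ Set.Icc (0 : ℝ) 1,
      u0 * g l + v0 ∉ convexHull ℝ (Set.range fun i => u i * g l + v i) := by
  obtain ⟨p0, hp0⟩ := exists_sep _ _ hn0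
  obtain ⟨p1, hp1⟩ := exists_sep _ _ hn1
  obtain ⟨i0⟩ := ‹Nonempty ι›
  have hp0ne : p0 ≠ 0 := by
    rintro rfl
    have := hp0 i0
    simp at this
  have hp1ne : p1 ≠ 0 := by
    rintro rfl
    have := hp1 i0
    simp at this
  -- perturbation of `p1`
  obtain ⟨r, hr, hrim⟩ : ∃ r : ℂ, (∀ i, 0 < (r * ((u i * t1 + v i) - (u0 * t1 + v0))).re)
      ∧ (p0 * conj r).im ≠ 0 := by
    by_cases him : (p0 * conj p1).im = 0
    · have h1 : ∀ᶠ ε : ℝ in 𝓝[≠] 0, ∀ i,
          0 < ((p1 * (1 + (ε : ℂ) * I)) * ((u i * t1 + v i) - (u0 * t1 + v0))).re := by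
        rw [Filter.eventually_all]
        intro i
        have c1 : Continuous fun ε : ℝ =>
          ((p1 * (1 + (ε : ℂ) * I)) * ((u i * t1 + v i) - (u0 * t1 + v0))).re := by fun_prop
        have c2 : ∀ᶠ ε : ℝ in 𝓝 0,
            0 < ((p1 * (1 + (ε : ℂ) * I)) * ((u i * t1 + v i) - (u0 * t1 + v0))).re := by
          apply c1.continuousAt.eventually_const_lt
          have := hp1 i
          simpa using this
        exact c2.filter_mono nhdsWithin_le_nhds
      have h2 : ∀ᶠ ε : ℝ in 𝓝[≠] 0, ε ≠ 0 := eventually_mem_nhdsWithin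
      obtain ⟨ε, hε1, hε2⟩ := (h1.and h2).exists
      refine ⟨_, hε1, ?_⟩
      have hre : (p0 * conj p1).re ≠ 0 := by
        intro hre
        have h0 : p0 * conj p1 = 0 := Complex.ext hre him
        rcases mul_eq_zero.1 h0 with h | h
        · exact hp0ne h
        · exact hp1ne ((map_eq_zero _).1 h)
      have e : p0 * conj (p1 * (1 + (ε : ℂ) * I)) = (p0 * conj p1) * (1 - (ε : ℂ) * I) := by
        simp only [map_mul, map_add, map_one, Complex.conj_ofReal, Complex.conj_I]
        ring
      rw [e]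
      simp only [Complex.mul_im, Complex.sub_re, Complex.sub_im, Complex.one_re, Complex.one_im,
        Complex.mul_re, Complex.ofReal_re, Complex.ofReal_im, Complex.I_re, Complex.I_im] at him ⊢ hre
      intro h
      apply mul_ne_zero hε2 hre
      nlinarith [h, him]
    · exact ⟨p1, hp1, him⟩
  set P : ℝ → ℂ := fun l => (1 - l : ℝ) * (p0 * t0) + (l : ℂ) * (r * t1) with hP
  set Q : ℝ → ℂ := fun l => (1 - l : ℝ) * p0 + (l : ℂ) * r with hQ
  have hQne : ∀ l, Q l ≠ 0 := by
    intro l hl
    have h1 : (Q l * conj r).im = (1 - l) * (p0 * conj r).im := by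
      simp only [hQ, add_mul, mul_assoc, Complex.mul_conj, Complex.add_im, Complex.im_ofReal_mul,
        Complex.ofReal_im, mul_zero, add_zero]
    rw [hl, zero_mul, Complex.zero_im] at h1
    have h2 : (1 - l) = 0 := by
      rcases mul_eq_zero.1 h1.symm with h | h
      · exact h
      · exact absurd h hrim
    have h3 : l = 1 := by linarith
    rw [h3] at hl
    simp only [hQ, sub_self, Complex.ofReal_zero, zero_mul, Complex.ofReal_one, one_mul,
      zero_add] at hl
    rw [hl] at hrim
    simp at hrim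
  have hPc : Continuous P := by
    simp only [hP]
    fun_prop
  have hQc : Continuous Q := by
    simp only [hQ]
    fun_prop
  refine ⟨fun l => P l / Q l, hPc.div hQc hQne, ?_, ?_, ?_⟩
  · have : P 0 = t0 * Q 0 := by
      simp only [hP, hQ, sub_zero, Complex.ofReal_one, one_mul, Complex.ofReal_zero, zero_mul,
        add_zero]
      ring
    show P 0 / Q 0 = t0
    rw [this, mul_div_cancel_right₀ _ (hQne 0)]
  · have : P 1 = t1 * Q 1 := by
      simp only [hP, hQ, sub_self, Complex.ofReal_one, one_mul, Complex.ofReal_zero, zero_mul,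
        zero_add]
      ring
    show P 1 / Q 1 = t1
    rw [this, mul_div_cancel_right₀ _ (hQne 1)]
  rintro l ⟨hl0, hl1⟩
  have hPl : P l = Q l * (P l / Q l) := by field_simp [hQne l]
  refine not_mem_of_pos _ _ (Q l) (fun i => ?_)
  have e : Q l * ((u i * (P l / Q l) + v i) - (u0 * (P l / Q l) + v0))
      = (1 - l : ℝ) * (p0 * ((u i * t0 + v i) - (u0 * t0 + v0)))
        + (l : ℂ) * (r * ((u i * t1 + v i) - (u0 * t1 + v0))) := by
    have h1 : Q l * (P l / Q l) = P l := hPl.symm
    have h2 : Q l * ((u i * (P l / Q l) + v i) - (u0 * (P l / Q l) + v0))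
        = (u i - u0) * (Q l * (P l / Q l)) + Q l * (v i - v0) := by ring
    rw [h2, h1]
    simp only [hP, hQ]
    ring
  show 0 < (Q l * ((u i * (P l / Q l) + v i) - (u0 * (P l / Q l) + v0))).re
  rw [e, Complex.add_re, Complex.re_ofReal_mul, Complex.re_ofReal_mul]
  have ha := hp0 i
  have hb := hr i
  rcases hl0.eq_or_lt with h0 | h0
  · rw [← h0]
    simp only [sub_zero, one_mul, zero_mul, add_zero]
    exact ha
  · have h3 := mul_pos h0 hb
    have h4 := mul_nonneg (sub_nonneg.2 hl1) ha.le
    linarith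

/-- The set of parameters at which the inclusion fails is connected. -/
theorem isPreconnected_bad {ι : Type*} [Finite ι] [Nonempty ι] (u v : ι → ℂ) (u0 v0 : ℂ) :
    IsPreconnected {t : ℂ | u0 * t + v0 ∉ convexHull ℝ (Set.range fun i => u i * t + v i)} := by
  apply isPreconnected_of_forall_pair
  intro t0 h0 t1 h1
  obtain ⟨g, hg, hg0, hg1, hgl⟩ := exists_path u v u0 v0 t0 t1 h0 h1
  refine ⟨g '' Set.Icc (0 : ℝ) 1, ?_, ⟨0, by simp, hg0⟩, ⟨1, by simp, hg1⟩,
    isPreconnected_Icc.image g hg.continuousOn⟩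
  rintro _ ⟨l, hl, rfl⟩
  exact hgl l hl

/-- A connected set on which a continuous function has no zero lies on one side. -/
theorem oneSide {N : Set ℂ} (hN : IsPreconnected N) (q : ℂ → ℝ) (hq : Continuous q)
    (h0 : ∀ t ∈ N, q t ≠ 0) : (∀ t ∈ N, q t < 0) ∨ (∀ t ∈ N, 0 < q t) := by
  by_contra hcon
  push Not at hcon
  obtain ⟨⟨x, hx, hx0⟩, ⟨y, hy, hy0⟩⟩ := hcon
  obtain ⟨z, hz, hz0⟩ := hN.intermediate_value hy hx hq.continuousOn ⟨hy0, hx0⟩
  exact h0 z hz hz0

theorem continuous_qf (α γ : ℝ) (β : ℂ) : Continuous (qf α γ β) := by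
  unfold qf
  fun_prop

end Pool.Agent.Helper2.OS
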